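import Pool.Agent.H334R2.CM.Defs

/-!
# Project CM, task GL2: multiplicity = dim e M (helper619)
-/

set_option autoImplicit false

universe u

namespace CM

namespace GL2

section alg

variable {k : Type u} [Field k] {A : Type u} [Ring A] [Algebra k A]

lemma pow_cor {e n : A} (hee : e * e = e) (h1 : e * n = n) (h2 : n * e = n) :
    ∀ j : ℕ, e * (n ^ j * e) = n ^ j * e := by
  intro j
  induction j with
  | zero => rw [pow_zero, one_mul, hee]
  | succ j ih =>
    rw [pow_succ', mul_assoc, ← mul_assoc e n, h1]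

/-- a nilpotent element of `eAe` has no left inverse in `eAe` -/
lemma no_left_inv {e w n : A} (he0 : e ≠ 0) (hwe : w * e = w) (hen : e * n = n)
    (hn : IsNilpotent n) (h : w * n = e) : False := by
  obtain ⟨j, hj⟩ := hn
  have h1 : ∀ i : ℕ, w ^ (i + 1) * n ^ (i + 1) = e := by
    intro i
    induction i with
    | zero => simpa using h
    | succ i ih =>
      calc w ^ (i + 1 + 1) * n ^ (i + 1 + 1) = w * (w ^ (i + 1) * n ^ (i + 1)) * n := by
            rw [pow_succ' w, pow_succ n]
            noncomm_ring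
        _ = e := by rw [ih, hwe, h]
  have h2 := h1 j
  rw [pow_succ n, hj, zero_mul, mul_zero] at h2
  exact he0 h2.symm

/-- in `eAe` an element `c e + nilpotent` with `c ≠ 0` has a left inverse -/
lemma left_inv {e m : A} (hee : e * e = e) (hm1 : e * m = m) (hm2 : m * e = m) {c : k}
    (hc : c ≠ 0) (hn : IsNilpotent (m - c • e)) :
    ∃ v : A, e * v = v ∧ v * e = v ∧ v * m = e := by
  -- m = c (e - x), x = - c⁻¹ (m - c e); v = c⁻¹ Σ x^j e
  set x : A := -(c⁻¹ • (m - c • e)) with hx
  have hxn : IsNilpotent x := by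
    rw [hx]
    exact (hn.smul c⁻¹).neg
  obtain ⟨N, hN⟩ := hxn
  have hx1 : e * x = x := by
    rw [hx, mul_neg, mul_smul_comm, mul_sub, hm1, mul_smul_comm, hee]
  have hx2 : x * e = x := by
    rw [hx, neg_mul, smul_mul_assoc, sub_mul, hm2, smul_mul_assoc, hee]
  have hmx : m = c • (e - x) := by
    rw [hx, sub_neg_eq_add, smul_add, smul_smul, mul_inv_cancel₀ hc, one_smul]
    abel
  refine ⟨c⁻¹ • ((∑ j ∈ Finset.range N, x ^ j) * e), ?_, ?_, ?_⟩
  · rw [mul_smul_comm]
    congr 1
    rw [Finset.sum_mul, Finset.mul_sum]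
    exact Finset.sum_congr rfl fun j _ => pow_cor hee hx1 hx2 j
  · rw [smul_mul_assoc, mul_assoc, hee]
  · rw [hmx, smul_mul_smul_comm, inv_mul_cancel₀ hc, one_smul, mul_assoc, mul_sub, hee, hx1]
    have h1 : (∑ j ∈ Finset.range N, x ^ j) * (1 - x) = 1 - x ^ N := by
      have := mul_neg_geom_sum x N
      rw [← geom_sum_mul_neg]
    have h2 : (∑ j ∈ Finset.range N, x ^ j) * (e - x) =
        ((∑ j ∈ Finset.range N, x ^ j) * (1 - x)) * e := by
      rw [mul_assoc, sub_mul, one_mul, hx2]
    rw [h2, h1, hN, sub_zero, one_mul]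

/-- in `eAe` (local) a multiple of a nilpotent element is nilpotent -/
lemma mul_nil {e : A} (he : IsLoc k e) {b n : A} (hb1 : e * b = b) (hb2 : b * e = b)
    (hn1 : e * n = n) (hn2 : n * e = n) (hn : IsNilpotent n) : IsNilpotent (b * n) := by
  obtain ⟨he0, hee, hloc⟩ := he
  have hm1 : e * (b * n) = b * n := by rw [← mul_assoc, hb1]
  have hm2 : b * n * e = b * n := by rw [mul_assoc, hn2]
  obtain ⟨c, hc⟩ := hloc (b * n) ⟨hm1, hm2⟩
  by_cases hc0 : c = 0
  · rw [hc0, zero_smul, sub_zero] at hc
    exact hc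
  · exfalso
    obtain ⟨v, -, -, hv3⟩ := left_inv hee hm1 hm2 hc0 hc
    exact no_left_inv (w := v * b) he0 (by rw [mul_assoc, hb2]) hn1 hn (by rw [mul_assoc, hv3])

end alg

section mod

variable {k : Type u} [Field k] {A : Type u} [Ring A] [Algebra k A]
variable {V : Type u} [AddCommGroup V] [Module A V] [Module k V] [IsScalarTower k A V]

variable (k) in
/-- the vectors of `X` fixed by `e` -/
def fx (e : A) (X : Submodule A V) : Submodule k V where
  carrier := {x | x ∈ X ∧ e • x = x}
  add_mem' := by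
    rintro x y ⟨h1, h2⟩ ⟨h3, h4⟩
    exact ⟨X.add_mem h1 h3, by rw [smul_add, h2, h4]⟩
  zero_mem' := ⟨X.zero_mem, smul_zero _⟩
  smul_mem' := by
    rintro c x ⟨h1, h2⟩
    refine ⟨?_, ?_⟩
    · have : c • x = (algebraMap k A c) • x := (algebraMap_smul A c x).symm
      rw [this]
      exact X.smul_mem _ h1
    · have h3 : c • x = (algebraMap k A c) • x := (algebraMap_smul A c x).symm
      rw [h3, smul_smul, ← Algebra.commutes, ← smul_smul, h2]

lemma mem_fx {e : A} {X : Submodule A V} {x : V} : x ∈ fx k e X ↔ x ∈ X ∧ e • x = x := Iff.rfl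

/-- the key fact in a simple factor -/
lemma key {e : A} (he : IsLoc k e) {X Y : Submodule A V} (hXY : X ⋖ Y) {s : V} (hsY : s ∈ Y)
    (hes : e • s = s) (hsX : s ∉ X) {t : V} (htY : t ∈ Y) (het : e • t = t) :
    ∃ c : k, t - c • s ∈ X := by
  have hsup : ∀ z : V, z ∈ Y → z ∉ X → X ⊔ Submodule.span A {z} = Y := by
    intro z hz hzX
    have h1 : X ⊔ Submodule.span A {z} ≤ Y :=
      sup_le hXY.le ((Submodule.span_singleton_le_iff_mem _ _).2 hz)
    rcases hXY.eq_or_eq le_sup_left h1 with h | h
    · exfalso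
      apply hzX
      rw [← h]
      exact Submodule.mem_sup_right (Submodule.mem_span_singleton_self z)
    · exact h
  have hdec : ∀ z : V, z ∈ Y → z ∉ X → ∀ y ∈ Y, ∃ x ∈ X, ∃ a : A, y = x + a • z := by
    intro z hz hzX y hy
    rw [← hsup z hz hzX, Submodule.mem_sup] at hy
    obtain ⟨x, hx, w, hw, rfl⟩ := hy
    obtain ⟨a, rfl⟩ := Submodule.mem_span_singleton.1 hw
    exact ⟨x, hx, a, rfl⟩
  obtain ⟨he0, hee, hloc⟩ := id he
  obtain ⟨x, hx, a, hxa⟩ := hdec s hsY hsX t htY
  obtain ⟨c, hc⟩ := hloc (e * a * e) ⟨by rw [← mul_assoc, ← mul_assoc, hee],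
    by rw [mul_assoc, hee]⟩
  set n : A := e * a * e - c • e with hn
  have hn1 : e * n = n := by
    rw [hn, mul_sub, mul_smul_comm, hee, ← mul_assoc, ← mul_assoc, hee]
  have hn2 : n * e = n := by
    rw [hn, sub_mul, smul_mul_assoc, hee, mul_assoc, hee]
  refine ⟨c, ?_⟩
  have hns : n • s ∈ X := by
    by_contra hnsX
    obtain ⟨x', hx', b, hb⟩ := hdec (n • s) (Y.smul_mem _ hsY) hnsX s hsY
    have hmn : IsNilpotent (e * b * e * n) :=
      mul_nil he (by rw [← mul_assoc, ← mul_assoc, hee]) (by rw [mul_assoc, hee]) hn1 hn2 hc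
    set m : A := e * b * e * n with hm
    have h1 : s = e • x' + m • s := by
      calc s = e • s := hes.symm
        _ = e • (x' + b • n • s) := by rw [← hb]
        _ = e • x' + m • s := by
            rw [smul_add, hm, smul_smul, smul_smul]
            congr 2
            rw [mul_assoc (e * b) e n, hn1, mul_assoc]
    have h2 : s - m • s ∈ X := by
      have : s - m • s = e • x' := by
        nth_rewrite 1 [h1]
        abel
      rw [this]
      exact X.smul_mem _ hx'
    have h3 : ∀ j : ℕ, s - m ^ j • s ∈ X := by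
      intro j
      induction j with
      | zero => rw [pow_zero, one_smul, sub_self]; exact X.zero_mem
      | succ j ih =>
        have : s - m ^ (j + 1) • s = (s - m • s) + m • (s - m ^ j • s) := by
          rw [smul_sub, smul_smul, ← pow_succ']
          abel
        rw [this]
        exact X.add_mem h2 (X.smul_mem _ ih)
    obtain ⟨j, hj⟩ := hmn
    have h4 := h3 j
    rw [hj, zero_smul, sub_zero] at h4
    exact hsX h4
  have h5 : t - c • s = e • x + n • s := by
    calc t - c • s = e • t - c • s := by rw [het]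
      _ = e • (x + a • s) - c • s := by rw [← hxa]
      _ = e • x + (e * a * e) • s - c • (e • s) := by
          rw [smul_add, mul_smul (e * a), hes, mul_smul]
      _ = e • x + n • s := by
          rw [hn, sub_smul, smul_assoc]
          abel
  rw [h5]
  exact X.add_mem (X.smul_mem _ hx) hns

lemma fx_succ [FiniteDimensional k V] {e : A} (he : IsLoc k e) {X Y : Submodule A V}
    (hXY : X ⋖ Y) {s : V} (hsY : s ∈ Y) (hes : e • s = s) (hsX : s ∉ X) :
    Module.finrank k (fx k e Y) = Module.finrank k (fx k e X) + 1 := by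
  have hsup : fx k e Y = fx k e X ⊔ Submodule.span k {s} := by
    apply le_antisymm
    · intro t ht
      obtain ⟨c, hc⟩ := key he hXY hsY hes hsX ht.1 ht.2
      rw [Submodule.mem_sup]
      refine ⟨t - c • s, ⟨hc, ?_⟩, c • s, ?_, by abel⟩
      · rw [smul_sub, ht.2]
        congr 1
        rw [← algebraMap_smul A c s, smul_smul, ← Algebra.commutes, ← smul_smul, hes]
      · exact Submodule.smul_mem _ _ (Submodule.mem_span_singleton_self s)
    · refine sup_le ?_ ?_
      · intro t ht
        exact ⟨hXY.le ht.1, ht.2⟩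
      · rw [Submodule.span_singleton_le_iff_mem]
        exact ⟨hsY, hes⟩
  have hs0 : s ≠ 0 := fun h => hsX (h ▸ X.zero_mem)
  have hinf : fx k e X ⊓ Submodule.span k {s} = ⊥ := by
    rw [eq_bot_iff]
    rintro t ⟨ht1, ht2⟩
    obtain ⟨c, rfl⟩ := Submodule.mem_span_singleton.1 ht2
    by_cases hc : c = 0
    · rw [hc, zero_smul]
      exact Submodule.zero_mem _
    · exfalso
      apply hsX
      have h1 : s = c⁻¹ • (c • s) := by rw [smul_smul, inv_mul_cancel₀ hc, one_smul]
      rw [h1, ← algebraMap_smul A c⁻¹]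
      exact X.smul_mem _ ht1.1
  have h := Submodule.finrank_sup_add_finrank_inf_eq (fx k e X) (Submodule.span k {s})
  rw [hinf, finrank_bot, add_zero, finrank_span_singleton hs0, ← hsup] at h
  exact h

lemma fx_same {e : A} {X Y : Submodule A V} (hXY : X ≤ Y) (h : ∀ y ∈ Y, e • y ∈ X) :
    fx k e Y = fx k e X := by
  apply le_antisymm
  · rintro t ⟨h1, h2⟩
    exact ⟨h2 ▸ h t h1, h2⟩
  · rintro t ⟨h1, h2⟩
    exact ⟨hXY h1, h2⟩

end mod

lemma telescope : ∀ (n : ℕ) (f : Fin (n + 1) → ℕ) (g : Fin n → ℕ),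
    (∀ i, f i.succ = f i.castSucc + g i) → f (Fin.last n) = f 0 + ∑ i, g i := by
  intro n
  induction n with
  | zero => intro f g _; simp
  | succ n ih =>
    intro f g h
    rw [Fin.sum_univ_castSucc, ← add_assoc]
    have h1 := ih (fun i => f i.castSucc) (fun i => g i.castSucc) (by
      intro i
      have := h i.castSucc
      rw [← Fin.succ_castSucc]
      exact this)
    have h2 := h (Fin.last n)
    rw [Fin.succ_last] at h2
    rw [h2]
    have h3 : f (Fin.last n).castSucc = f 0 + ∑ i : Fin n, g i.castSucc := by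
      simpa using h1
    rw [h3]

end GL2

open GL2 in
/-- the multiplicity of the simple module belonging to the local idempotent `e` in a left ideal
`M` is `dim e M` -/
theorem GL2 {k : Type u} [Field k] {A : Type u} [Ring A] [Algebra k A] [FiniteDimensional k A]
    (e : A) (he : IsLoc k e) (S : Type u) [AddCommGroup S] [Module A S] (hS : IsSimpleModule A S)
    (hS' : ∀ (M : Type u) [AddCommGroup M] [Module A M], IsSimpleModule A M →
        ((∃ m : M, e • m ≠ 0) ↔ Nonempty (M ≃ₗ[A] S))) (M : Submodule A A) :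
    HasMult A M S (Module.finrank k ↥(M.restrictScalars k ⊓ cor k e 1)) := by
  classical
  have hee : e * e = e := he.2.1
  have : IsNoetherian A A := isNoetherian_of_tower k inferInstance
  have : IsArtinian A A := isArtinian_of_tower k inferInstance
  obtain ⟨s, hs0, hs1⟩ := exists_compositionSeries_of_isNoetherian_isArtinian A (↥M)
  refine ⟨s, hs0, hs1, ?_⟩
  set P : Fin s.length → Prop := fun i =>
    Nonempty ((s i.succ ⧸ (s i.castSucc).submoduleOf (s i.succ)) ≃ₗ[A] S) with hP
  have hstep : ∀ i : Fin s.length, Module.finrank k (fx k e (s i.succ)) =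
      Module.finrank k (fx k e (s i.castSucc)) + (if P i then 1 else 0) := by
    intro i
    have hcov : s i.castSucc ⋖ s i.succ := s.step i
    have hsim : IsSimpleModule A (s i.succ ⧸ (s i.castSucc).submoduleOf (s i.succ)) :=
      (covBy_iff_quot_is_simple hcov.le).1 hcov
    have hiff := hS' _ hsim
    by_cases hPi : P i
    · rw [if_pos hPi]
      obtain ⟨m, hm⟩ := hiff.2 hPi
      obtain ⟨y, rfl⟩ := Submodule.Quotient.mk_surjective _ m
      rw [← Submodule.Quotient.mk_smul, Ne, Submodule.Quotient.mk_eq_zero] at hm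
      refine fx_succ he hcov (s := ((e • y : ↥(s i.succ)) : ↥M)) (e • y).2 ?_ hm
      rw [← Submodule.coe_smul, smul_smul, hee]
    · rw [if_neg hPi, add_zero]
      rw [fx_same hcov.le]
      intro y hy
      by_contra hcon
      apply hPi
      apply hiff.1
      refine ⟨Submodule.Quotient.mk (⟨y, hy⟩ : ↥(s i.succ)), ?_⟩
      rw [← Submodule.Quotient.mk_smul, Ne, Submodule.Quotient.mk_eq_zero]
      exact hcon
  have htel := telescope s.length (fun i => Module.finrank k (fx k e (s i)))
    (fun i => if P i then 1 else 0) hstep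
  have h0 : Module.finrank k (fx k e (s 0)) = 0 := by
    have : s 0 = ⊥ := hs0
    rw [this]
    have h1 : fx k e (⊥ : Submodule A ↥M) = ⊥ := by
      rw [eq_bot_iff]
      rintro t ⟨ht, -⟩
      exact ht
    rw [h1, finrank_bot]
  have hl : s (Fin.last s.length) = ⊤ := hs1
  rw [h0, zero_add, hl] at htel
  have hcard : Nat.card {i : Fin s.length // P i} = ∑ i, (if P i then 1 else 0) := by
    rw [Nat.card_eq_fintype_card, Fintype.card_subtype, Finset.card_filter]
  have hfin : Module.finrank k (fx k e (⊤ : Submodule A ↥M)) =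
      Module.finrank k ↥(M.restrictScalars k ⊓ cor k e 1) := by
    refine LinearEquiv.finrank_eq ?_
    exact
      { toFun := fun x => ⟨((x : ↥M) : A), ⟨(x : ↥M).2, by
          have := x.2.2
          exact congrArg Subtype.val this, mul_one _⟩⟩
        invFun := fun x => ⟨⟨(x : A), x.2.1⟩, ⟨Submodule.mem_top, Subtype.ext x.2.2.1⟩⟩
        map_add' := fun x y => rfl
        map_smul' := fun c x => rfl
        left_inv := fun x => rfl
        right_inv := fun x => rfl }
  rw [← hfin, htel, ← hcard]

end CM
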